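import Pool.Agent.Work.MP_970e75_an.Full.Tools
import Pool.Agent.Work.MP_970e75_an.Gen.TwoFlows

/-!
Abelian groups.
-/

set_option autoImplicit false

set_option linter.unusedSectionVars false

namespace Pool.Agent.Work.MP_970e75_an.Full

open Filter Topology Set
open scoped Manifold ContDiff Topology
open Pool.Agent.Work.MP_970e75_an Pool.Agent.Work.MP_970e75_an.Gen

namespace AB

variable {E : Type} [NormedAddCommGroup E] [NormedSpace ℂ E] [FiniteDimensional ℂ E] {G : Type}
    [TopologicalSpace G] [ChartedSpace E G] [Group G]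

theorem exp_add' (T : LieTools E G) (hbr : ∀ X Y : E, T.br X Y = 0) (X Y : E) :
    T.exp (X + Y) = T.exp X * T.exp Y := T.exp_comm X Y (hbr X Y)

theorem exp_surj (T : LieTools E G) [IsTopologicalGroup G] [ConnectedSpace G]
    (hbr : ∀ X Y : E, T.br X Y = 0) (g : G) : ∃ X, T.exp X = g := by
  refine T.induction (P := fun g => ∃ X, T.exp X = g) ⟨0, T.exp_zero⟩ (fun X => ⟨X, rfl⟩) ?_ g
  rintro _ _ ⟨X, rfl⟩ ⟨Y, rfl⟩
  exact ⟨X + Y, exp_add' T hbr X Y⟩

theorem comm' (T : LieTools E G) [IsTopologicalGroup G] [ConnectedSpace G]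
    (hbr : ∀ X Y : E, T.br X Y = 0) (g h : G) : g * h = h * g := by
  obtain ⟨X, rfl⟩ := exp_surj T hbr g
  obtain ⟨Y, rfl⟩ := exp_surj T hbr h
  rw [← exp_add' T hbr, ← exp_add' T hbr, add_comm]

theorem log_one (T : LieTools E G) : T.log 1 = 0 := by
  have := T.log_exp.self_of_nhds
  rwa [T.exp_zero] at this

/-- functions of `exp` are holomorphic -/
theorem hol (T : LieTools E G) [LieGroup 𝓘(ℂ, E) ω G] [ConnectedSpace G]
    (hbr : ∀ X Y : E, T.br X Y = 0) (f : G → ℂ) (F : E → ℂ) (hF : Differentiable ℂ F)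
    (hf : ∀ Y, f (T.exp Y) = F Y) : MDifferentiable 𝓘(ℂ, E) 𝓘(ℂ, ℂ) f := by
  have hTG : IsTopologicalGroup G := topologicalGroup_of_lieGroup 𝓘(ℂ, E) ω
  intro g0
  obtain ⟨X0, hX0⟩ := exp_surj T hbr g0
  have h1 : MDifferentiable 𝓘(ℂ, E) 𝓘(ℂ, E) (fun g : G => g0⁻¹ * g) :=
    (contMDiff_mul_left (I := 𝓘(ℂ, E)) (n := ω) (a := g0⁻¹)).mdifferentiable (by simp)
  have h2 : MDifferentiableAt 𝓘(ℂ, E) 𝓘(ℂ, E) (fun g : G => T.log (g0⁻¹ * g)) g0 := by
    have h3 : MDifferentiableAt 𝓘(ℂ, E) 𝓘(ℂ, E) T.log (g0⁻¹ * g0) := by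
      rw [inv_mul_cancel]
      exact T.log_hol.mdifferentiableAt (T.U_open.mem_nhds T.one_mem)
    exact h3.comp g0 (h1 g0)
  have h4 : MDifferentiableAt 𝓘(ℂ, E) 𝓘(ℂ, ℂ) (fun g : G => F (X0 + T.log (g0⁻¹ * g))) g0 := by
    have h5 : Differentiable ℂ (fun Y : E => F (X0 + Y)) :=
      hF.comp ((differentiable_const _).add differentiable_id)
    exact (mdifferentiable_iff_differentiable.mpr h5 _).comp g0 h2
  refine h4.congr_of_eventuallyEq ?_
  have h6 : ∀ᶠ g in 𝓝 g0, g0⁻¹ * g ∈ T.U := by
    have : Tendsto (fun g : G => g0⁻¹ * g) (𝓝 g0) (𝓝 1) := by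
      have := (continuous_const_mul g0⁻¹).tendsto g0
      rwa [inv_mul_cancel] at this
    exact this.eventually (T.U_open.mem_nhds T.one_mem)
  filter_upwards [h6] with g hg
  have h7 := T.exp_log _ hg
  have h8 : T.exp (X0 + T.log (g0⁻¹ * g)) = g := by
    rw [exp_add' T hbr, h7, hX0, mul_inv_cancel_left]
  rw [← hf, h8]

/-- kernel of a functional on a space of dimension at least two -/
theorem exists_ker (hd : 2 ≤ Module.finrank ℂ E) (y : E →ₗ[ℂ] ℂ) : ∃ V : E, V ≠ 0 ∧ y V = 0 := by
  by_contra hcon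
  push Not at hcon
  have hinj : Function.Injective y := by
    rw [injective_iff_map_eq_zero]
    intro V hV
    by_contra h
    exact hcon V h hV
  have := LinearMap.finrank_le_finrank_of_injective hinj
  rw [Module.finrank_self] at this
  omega

theorem case_trivial (hCR : Stmt_CR) (T : LieTools E G) [LieGroup 𝓘(ℂ, E) ω G] [ConnectedSpace G]
    (hS : IsStein E G) (hd : 2 ≤ Module.finrank ℂ E)
    (hbr : ∀ X Y : E, T.br X Y = 0) (hΛ : ∀ X, T.exp X = 1 → X = 0)
    (Γ : Subgroup G) (hΓ : DiscreteTopology Γ) : IsTame E (Γ : Set G) := by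
  have hTG : IsTopologicalGroup G := topologicalGroup_of_lieGroup 𝓘(ℂ, E) ω
  have hnt : Nontrivial E := Module.nontrivial_of_finrank_pos (R := ℂ) (by omega)
  obtain ⟨X0, hX0⟩ := exists_ne (0 : E)
  obtain ⟨χ, hχ⟩ : ∃ χ : E →L[ℂ] ℂ, χ X0 = 1 := by
    obtain ⟨g, -, hg⟩ := exists_dual_vector ℂ X0 (norm_ne_zero_iff.mpr hX0)
    refine ⟨(‖X0‖ : ℂ)⁻¹ • g, ?_⟩
    show (‖X0‖ : ℂ)⁻¹ * g X0 = 1
    rw [hg]
    apply inv_mul_cancel₀
    simpa using hX0
  obtain ⟨V, hV0, hV⟩ := exists_ker hd χ.toLinearMap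
  have hV' : χ V = 0 := hV
  choose L hL using exp_surj T hbr
  have hLexp : ∀ Y, L (T.exp Y) = Y := by
    intro Y
    have h1 := hL (T.exp Y)
    have h2 : T.exp (L (T.exp Y) + -Y) = 1 := by
      rw [exp_add' T hbr, h1, T.exp_neg, mul_inv_cancel]
    have h3 := hΛ _ h2
    exact eq_of_sub_eq_zero (by rw [sub_eq_add_neg]; exact h3)
  have hLmul : ∀ g h, L (g * h) = L g + L h := by
    intro g h
    have h1 : g * h = T.exp (L g + L h) := by rw [exp_add' T hbr, hL, hL]
    rw [h1, hLexp]
  refine hCR E G hS (fun s => T.exp (s • X0)) (fun s => T.exp (s • V)) (fun s => T.exp (s • V))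
    (fun g => χ (L g)) (T.isOneParam X0) (T.isOneParam V) (T.isOneParam V) ?_ ?_ ?_ ?_ ?_
    (T.exists_exp_ne_one V hV0) (T.exists_exp_ne_one V hV0) Γ hΓ
  · refine hol T hbr _ (fun Y => χ Y) χ.differentiable ?_
    intro Y
    rw [hLexp]
  · intro s u
    exact comm' T hbr _ _
  · intro g s
    rw [hLmul, hLexp, map_add, map_smul, hχ, smul_eq_mul, mul_one]
  · intro g s
    rw [hLmul, hLexp, map_add, map_smul, hV', smul_zero, add_zero]
  · intro s g
    rw [hLmul, hLexp, map_add, map_smul, hV', smul_zero, zero_add]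

/-- The kernel of the exponential as a `ℤ`-module. -/
def ker (T : LieTools E G) (hbr : ∀ X Y : E, T.br X Y = 0) : Submodule ℤ E :=
  AddSubgroup.toIntSubmodule
    { carrier := {X | T.exp X = 1}
      zero_mem' := T.exp_zero
      add_mem' := by
        intro X Y hX hY
        show T.exp (X + Y) = 1
        rw [exp_add' T hbr, show T.exp X = 1 from hX, show T.exp Y = 1 from hY, mul_one]
      neg_mem' := by
        intro X hX
        show T.exp (-X) = 1
        rw [T.exp_neg, show T.exp X = 1 from hX, inv_one] }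

theorem mem_ker (T : LieTools E G) (hbr : ∀ X Y : E, T.br X Y = 0) (X : E) :
    X ∈ ker T hbr ↔ T.exp X = 1 := Iff.rfl

theorem discrete_ker (T : LieTools E G) (hbr : ∀ X Y : E, T.br X Y = 0) :
    DiscreteTopology (ker T hbr) := by
  have h1 : ∀ᶠ X in 𝓝 (0 : E), X ∈ ker T hbr → X = 0 := by
    filter_upwards [T.log_exp] with X hX hXk
    rw [mem_ker] at hXk
    rw [hXk, log_one] at hX
    exact hX.symm
  have h2 : ∀ᶠ x in 𝓝 (0 : ker T hbr), x = 0 := by
    have h3 : Tendsto (fun x : ker T hbr => (x : E)) (𝓝 0) (𝓝 0) :=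
      (continuous_subtype_val.tendsto (0 : ker T hbr))
    filter_upwards [h3.eventually h1] with x hx
    exact Subtype.ext (hx x.2)
  rw [discreteTopology_iff_isOpen_singleton_zero]
  exact isOpen_singleton_iff_nhds_eq_pure 0 |>.2 (le_antisymm (by
    rw [le_pure_iff]; exact h2) (pure_le_nhds 0))

/-- the real span of the kernel contains no complex line -/
theorem no_line (T : LieTools E G) [LieGroup 𝓘(ℂ, E) ω G] (hS : IsStein E G)
    (hbr : ∀ X Y : E, T.br X Y = 0) (v : E) (hv : v ∈ Submodule.span ℝ (ker T hbr : Set E))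
    (hiv : Complex.I • v ∈ Submodule.span ℝ (ker T hbr : Set E)) : v = 0 := by
  by_contra hv0
  obtain ⟨l, ι, hι, hemb⟩ := hS
  have hdisc := discrete_ker T hbr
  set K : Submodule ℝ E := Submodule.span ℝ (ker T hbr : Set E) with hK
  set f := K.subtype with hf
  set L₀ : Submodule ℤ K := (ker T hbr).comap (f.restrictScalars ℤ) with hL₀
  have h_img : f '' L₀ = (ker T hbr : Set E) := by
    rw [← LinearMap.coe_restrictScalars ℤ f, ← Submodule.map_coe (f.restrictScalars ℤ),
      Submodule.map_comap_eq_self]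
    exact fun x hx ↦ LinearMap.mem_range.mpr ⟨⟨x, Submodule.subset_span hx⟩, rfl⟩
  have hd0 : DiscreteTopology L₀ := by
    refine DiscreteTopology.preimage_of_continuous_injective (ker T hbr : Set E) ?_
      (Submodule.injective_subtype _)
    exact LinearMap.continuous_of_finiteDimensional f
  have hzl : IsZLattice ℝ L₀ := ⟨by
    rw [← (Submodule.map_injective_of_injective (Submodule.injective_subtype K)).eq_iff,
      Submodule.map_span, Submodule.map_top, Submodule.range_subtype, h_img]⟩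
  have hcomp : IsCompact (Set.range (fun z : K => T.exp (z : E))) := by
    refine IsZLattice.isCompact_range_of_periodic L₀ (fun z : K => T.exp (z : E))
      (T.exp_hol.continuous.comp continuous_subtype_val) ?_
    intro z w hw
    have hw' : T.exp (w : E) = 1 := hw
    show T.exp ((z : E) + (w : E)) = T.exp (z : E)
    rw [exp_add' T hbr, hw', mul_one]
  obtain ⟨l, hl, hK2⟩ := exists_filter (T.isOneParam v).1 (T.isOneParam v).2
    (T.exists_exp_ne_one v hv0) hι hemb.injective
  obtain ⟨s, hs⟩ := (hK2 _ hcomp).exists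
  apply hs
  have h1 : s • v ∈ K := by
    have : s • v = s.re • v + s.im • (Complex.I • v) := by
      conv_lhs => rw [← Complex.re_add_im s]
      rw [add_smul, mul_smul]
      rfl
    rw [this]
    exact K.add_mem (K.smul_mem _ hv) (K.smul_mem _ hiv)
  exact ⟨⟨s • v, h1⟩, rfl⟩

/-- a linear functional with integral values on the kernel -/
theorem exists_functional (T : LieTools E G) [LieGroup 𝓘(ℂ, E) ω G] (hS : IsStein E G)
    (hbr : ∀ X Y : E, T.br X Y = 0) (hne : ∃ X, T.exp X = 1 ∧ X ≠ 0) :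
    ∃ (y : E →ₗ[ℂ] ℂ) (b : E), T.exp b = 1 ∧ y b = 1 ∧ ∀ X, T.exp X = 1 → ∃ n : ℤ, y X = n := by
  have hdisc := discrete_ker T hbr
  set K : Submodule ℝ E := Submodule.span ℝ (ker T hbr : Set E) with hK
  set f := K.subtype with hf
  set L₀ : Submodule ℤ K := (ker T hbr).comap (f.restrictScalars ℤ) with hL₀
  have h_img : f '' L₀ = (ker T hbr : Set E) := by
    rw [← LinearMap.coe_restrictScalars ℤ f, ← Submodule.map_coe (f.restrictScalars ℤ),
      Submodule.map_comap_eq_self]
    exact fun x hx ↦ LinearMap.mem_range.mpr ⟨⟨x, Submodule.subset_span hx⟩, rfl⟩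
  have hd0 : DiscreteTopology L₀ := by
    refine DiscreteTopology.preimage_of_continuous_injective (ker T hbr : Set E) ?_
      (Submodule.injective_subtype _)
    exact LinearMap.continuous_of_finiteDimensional f
  have hzl : IsZLattice ℝ L₀ := ⟨by
    rw [← (Submodule.map_injective_of_injective (Submodule.injective_subtype K)).eq_iff,
      Submodule.map_span, Submodule.map_top, Submodule.range_subtype, h_img]⟩
  have hfree : Module.Free ℤ L₀ := ZLattice.module_free ℝ L₀
  have hfin : Module.Finite ℤ L₀ := ZLattice.module_finite ℝ L₀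
  set b₀ := Module.Free.chooseBasis ℤ L₀ with hb₀
  set b := b₀.ofZLatticeBasis ℝ L₀ with hb
  have hbi : ∀ i, b i = b₀ i := fun i => Module.Basis.ofZLatticeBasis_apply ℝ L₀ b₀ i
  have hbK : ∀ i, T.exp ((b i : K) : E) = 1 := by
    intro i
    rw [hbi]
    exact (b₀ i).2
  -- complex linear independence
  have hli : LinearIndependent ℂ (fun i => ((b i : K) : E)) := by
    rw [Fintype.linearIndependent_iff]
    intro c hc
    set u : K := ∑ i, (c i).re • b i with hu
    set v : K := ∑ i, (c i).im • b i with hv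
    have huv : (u : E) + Complex.I • (v : E) = 0 := by
      rw [hu, hv, ← hc]
      push_cast
      rw [Finset.smul_sum, ← Finset.sum_add_distrib]
      refine Finset.sum_congr rfl fun i _ => ?_
      conv_rhs => rw [← Complex.re_add_im (c i)]
      rw [add_smul, mul_comm, mul_smul]
      rfl
    have hv0 : (v : E) = 0 := by
      refine no_line T hS hbr v v.2 ?_
      have : Complex.I • (v : E) = -(u : E) := by
        rw [eq_neg_iff_add_eq_zero, add_comm]; exact huv
      rw [this]
      exact K.neg_mem u.2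
    have hu0 : (u : E) = 0 := by
      rw [hv0, smul_zero, add_zero] at huv
      exact huv
    have hv0' : v = 0 := Subtype.ext hv0
    have hu0' : u = 0 := Subtype.ext hu0
    have h1 := Fintype.linearIndependent_iff.mp b.linearIndependent _ hu0'
    have h2 := Fintype.linearIndependent_iff.mp b.linearIndependent _ hv0'
    intro i
    exact Complex.ext (h1 i) (h2 i)
  -- an index
  obtain ⟨i0⟩ : Nonempty (Module.Free.ChooseBasisIndex ℤ L₀) := by
    by_contra hcon
    rw [not_nonempty_iff] at hcon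
    obtain ⟨X, hX, hX0⟩ := hne
    have hXK : X ∈ K := Submodule.subset_span hX
    have := b.sum_repr ⟨X, hXK⟩
    rw [Finset.univ_eq_empty, Finset.sum_empty] at this
    exact hX0 (congrArg Subtype.val this).symm
  -- the functional
  set B := Module.Basis.span hli with hB
  obtain ⟨y, hy⟩ := LinearMap.exists_extend (B.coord i0)
  have hyb : ∀ i, y ((b i : K) : E) = if i = i0 then 1 else 0 := by
    intro i
    have h1 : ((B i : Submodule.span ℂ (range fun i => ((b i : K) : E))) : E) = ((b i : K) : E) :=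
      congrArg Subtype.val (Module.Basis.span_apply hli i)
    have h2 := LinearMap.congr_fun hy (B i)
    rw [LinearMap.comp_apply, Submodule.subtype_apply, h1, Module.Basis.coord_apply,
      Module.Basis.repr_self, Finsupp.single_apply] at h2
    exact h2
  refine ⟨y, ((b i0 : K) : E), hbK i0, by rw [hyb, if_pos rfl], ?_⟩
  intro X hX
  have hXK : X ∈ K := Submodule.subset_span hX
  have hXL : (⟨X, hXK⟩ : K) ∈ L₀ := hX
  rw [← Module.Basis.ofZLatticeBasis_span ℝ L₀ b₀, Submodule.mem_span_range_iff_exists_fun] at hXL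
  obtain ⟨c, hc⟩ := hXL
  refine ⟨c i0, ?_⟩
  have h3 : X = ∑ i, c i • ((b i : K) : E) := by
    have := congrArg (Subtype.val) hc
    push_cast at this
    exact this.symm
  rw [h3, map_sum]
  simp only [map_zsmul, hyb]
  simp

theorem case_nontrivial (hCM : Stmt_CM) (T : LieTools E G) [LieGroup 𝓘(ℂ, E) ω G]
    [ConnectedSpace G] (hS : IsStein E G) (hd : 2 ≤ Module.finrank ℂ E)
    (hbr : ∀ X Y : E, T.br X Y = 0) (hne : ∃ X, T.exp X = 1 ∧ X ≠ 0)
    (Γ : Subgroup G) (hΓ : DiscreteTopology Γ) : IsTame E (Γ : Set G) := by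
  have hTG : IsTopologicalGroup G := topologicalGroup_of_lieGroup 𝓘(ℂ, E) ω
  obtain ⟨y, b, hb1, hyb, hy⟩ := exists_functional T hS hbr hne
  obtain ⟨V, hV0, hV⟩ := exists_ker hd y
  have hpi : (2 * Real.pi * Complex.I : ℂ) ≠ 0 := by
    simp [Real.pi_ne_zero]
  choose L hL using exp_surj T hbr
  set t : G → ℂ := fun g => Complex.exp (2 * Real.pi * Complex.I * y (L g)) with ht
  have htexp : ∀ Y, t (T.exp Y) = Complex.exp (2 * Real.pi * Complex.I * y Y) := by
    intro Y
    have h1 := hL (T.exp Y)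
    have h2 : T.exp (L (T.exp Y) + -Y) = 1 := by
      rw [exp_add' T hbr, h1, T.exp_neg, mul_inv_cancel]
    obtain ⟨n, hn⟩ := hy _ h2
    have h3 : y (L (T.exp Y)) = y Y + n := by
      rw [map_add, map_neg] at hn
      linear_combination hn
    show Complex.exp (2 * Real.pi * Complex.I * y (L (T.exp Y))) = _
    rw [h3, mul_add, Complex.exp_add, show (2 * Real.pi * Complex.I * (n : ℂ) : ℂ) =
      n * (2 * Real.pi * Complex.I) by ring, Complex.exp_int_mul_two_pi_mul_I, mul_one]
  have htmul : ∀ g h, t (g * h) = t g * t h := by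
    intro g h
    have h1 : g * h = T.exp (L g + L h) := by rw [exp_add' T hbr, hL, hL]
    rw [h1, htexp, map_add, mul_add, Complex.exp_add]
  set X : E := (2 * Real.pi * Complex.I : ℂ)⁻¹ • b with hX
  refine hCM E G hS (fun s => T.exp (s • X)) (fun s => T.exp (s • V)) t (T.isOneParam X)
    (T.isOneParam V) ?_ ?_ ?_ ?_ ?_ ?_ (T.exists_exp_ne_one V hV0) Γ hΓ
  · refine hol T hbr _ (fun Y => Complex.exp (2 * Real.pi * Complex.I * y Y)) ?_ htexp
    have hyd : Differentiable ℂ fun Y => y Y :=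
      (LinearMap.toContinuousLinearMap y).differentiable
    exact (hyd.const_mul _).cexp
  · intro s
    right
    rw [Subgroup.mem_center_iff]
    intro g
    exact comm' T hbr _ _
  · show T.exp ((2 * Real.pi * Complex.I : ℂ) • X) = 1
    rw [hX, smul_smul, mul_inv_cancel₀ hpi, one_smul, hb1]
  · intro g
    exact Complex.exp_ne_zero _
  · intro s g
    rw [htmul, htexp, hX, smul_smul, map_smul, hyb, smul_eq_mul, mul_one]
    congr 2
    field_simp
  · intro g s
    rw [htmul, htexp, map_smul, hV, smul_zero, mul_zero, Complex.exp_zero, mul_one]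

end AB

theorem stmt_AB_of (hCR : Stmt_CR) (hCM : Stmt_CM) : Stmt_AB := by
  intro E _ _ _ G _ _ _ _ _ T hS hd hbr Γ hΓ
  by_cases h : ∃ X, T.exp X = 1 ∧ X ≠ 0
  · exact AB.case_nontrivial hCM T hS hd hbr h Γ hΓ
  · push Not at h
    exact AB.case_trivial hCR T hS hd hbr h Γ hΓ

end Pool.Agent.Work.MP_970e75_an.Full
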