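import Pool.Agent.Work.MP_970e75_an.Full.Interface

/-!
The identity component of a complex Lie group.
-/

set_option autoImplicit false

namespace Pool.Agent.Work.MP_970e75_an.Full

open Filter Topology Set
open scoped Manifold ContDiff Topology
open Pool.Agent.Work.MP_970e75_an.Gen

theorem contMDiff_of_val {𝕜 E H M E' H' M' : Type*} [NontriviallyNormedField 𝕜]
    [NormedAddCommGroup E] [NormedSpace 𝕜 E] [TopologicalSpace H] {I : ModelWithCorners 𝕜 E H}
    [TopologicalSpace M] [ChartedSpace H M]
    [NormedAddCommGroup E'] [NormedSpace 𝕜 E'] [TopologicalSpace H'] {I' : ModelWithCorners 𝕜 E' H'}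
    [TopologicalSpace M'] [ChartedSpace H' M'] {n : ℕ∞ω} {U : TopologicalSpace.Opens M'} {f : M → U}
    (h : ContMDiff I I' n (Subtype.val ∘ f)) : ContMDiff I I' n f := by
  intro x
  exact (ChartedSpace.liftPropWithinAt_subtypeVal_comp_iff f univ x).mp (h x)

theorem stmt_G0 : Stmt_G0 := by
  intro E _ _ _ G _ _ _ _
  have hTG : IsTopologicalGroup G := topologicalGroup_of_lieGroup 𝓘(ℂ, E) ω
  have hlc : LocallyConnectedSpace G := ChartedSpace.locallyConnectedSpace E G
  let H : Subgroup G := Subgroup.connectedComponentOfOne G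
  have hopen : IsOpen (H : Set G) := isOpen_connectedComponent
  let U : TopologicalSpace.Opens G := ⟨H, hopen⟩
  let grp : Group U := inferInstanceAs (Group H)
  have hmul : ∀ a b : U, ((a * b : U) : G) = a * b := fun _ _ => rfl
  have hinv : ∀ a : U, ((a⁻¹ : U) : G) = (a : G)⁻¹ := fun _ => rfl
  have hval : ContMDiff 𝓘(ℂ, E) 𝓘(ℂ, E) ω (Subtype.val : U → G) := contMDiff_subtype_val
  let lie : LieGroup 𝓘(ℂ, E) ω U :=
    { contMDiff_mul := by
        apply contMDiff_of_val
        have h1 : ContMDiff (𝓘(ℂ, E).prod 𝓘(ℂ, E)) 𝓘(ℂ, E) ω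
            (fun p : U × U => (p.1 : G) * (p.2 : G)) :=
          (hval.comp contMDiff_fst).mul (hval.comp contMDiff_snd)
        exact h1
      contMDiff_inv := by
        apply contMDiff_of_val
        have h1 : ContMDiff 𝓘(ℂ, E) 𝓘(ℂ, E) ω (fun p : U => (p : G)⁻¹) :=
          hval.inv
        exact h1 }
  classical
  let j : U →* G :=
    { toFun := fun a => a
      map_one' := rfl
      map_mul' := fun _ _ => rfl }
  let k : G → U := fun g => if h : g ∈ U then ⟨g, h⟩ else 1
  refine ⟨U, inferInstance, inferInstance, grp, lie, j, k, ?_, ?_, ?_, ?_, ?_⟩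
  · have : ConnectedSpace (connectedComponent (1 : G)) :=
      isConnected_iff_connectedSpace.mp isConnected_connectedComponent
    exact this
  · exact hopen.isOpenEmbedding_subtypeVal
  · exact hval.mdifferentiable (by simp)
  · intro g
    show (if h : (g : G) ∈ U then (⟨g, h⟩ : U) else 1) = g
    rw [dif_pos g.2]
  · have hrange : Set.range j = (U : Set G) := by
      ext x
      constructor
      · rintro ⟨a, rfl⟩
        exact a.2
      · intro hx
        exact ⟨⟨x, hx⟩, rfl⟩
    rw [hrange]
    have h1 : ContMDiffOn 𝓘(ℂ, E) 𝓘(ℂ, E) ω k (U : Set G) := by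
      intro x hx
      refine (ChartedSpace.liftPropWithinAt_subtypeVal_comp_iff k (U : Set G) x).mp ?_
      have h2 : ContMDiffWithinAt 𝓘(ℂ, E) 𝓘(ℂ, E) ω (Subtype.val ∘ k) (U : Set G) x := by
        refine contMDiffWithinAt_id.congr ?_ ?_
        · intro y hy
          show ((if h : y ∈ U then (⟨y, h⟩ : U) else 1 : U) : G) = y
          rw [dif_pos (show y ∈ U from hy)]
        · show ((if h : x ∈ U then (⟨x, h⟩ : U) else 1 : U) : G) = x
          rw [dif_pos (show x ∈ U from hx)]
      exact h2
    exact h1.mdifferentiableOn (by simp)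

end Pool.Agent.Work.MP_970e75_an.Full
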